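import Mathlib

set_option autoImplicit false

/-!
# Rich lines in `ℂ^d`: the conjectured bound fails for every `d ≥ 4`

The point set is `V = {(a, b, c, a c - b²) : 0 ≤ a, b, c < N}` (with zeros appended when `d > 4`),
which lies on a quadric hypersurface of `ℂ⁴`. For `1 ≤ s` the vector `(s², s, 1)` is isotropic for
the quadratic form `a c - b²`, so that the lines of direction `(s², s, 1)` in the `(a, b, c)` space
lift to lines on the quadric. With `N = 8 j⁸` and `r = j⁶` this gives at least `16 j¹⁹` lines with at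
least `r` points of `V`, whereas the conjectured upper bound is of order `j¹⁸`.
-/

namespace Pool.Agent.Results.MP_0eaff0_co.QuadricCounterexample

/-- The lines (`1`-flats) of `ℂ^d` that contain at least `r` points of `V`. -/
def richLines {d : ℕ} (V : Finset (Fin d → ℂ)) (r : ℕ) :
    Set (AffineSubspace ℂ (Fin d → ℂ)) :=
  {L | Module.finrank ℂ L.direction = 1 ∧ r ≤ {p | p ∈ V ∧ p ∈ L}.ncard}

/-- `s V l`: the maximum number of points of `V` on an `l`-flat, a (nonempty) affine subspace of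
dimension `l`. -/
noncomputable def s {d : ℕ} (V : Finset (Fin d → ℂ)) (l : ℕ) : ℕ :=
  sSup {k | ∃ F : AffineSubspace ℂ (Fin d → ℂ), (F : Set (Fin d → ℂ)).Nonempty ∧
    Module.finrank ℂ F.direction = l ∧ k = {p | p ∈ V ∧ p ∈ F}.ncard}

/-! ### Counting zeros of quadratic polynomials -/

/-- a quadratic polynomial with a non-zero coefficient has at most two natural zeros -/
lemma card_quad_le (N : ℕ) (A B D : ℂ) (h : ¬ (A = 0 ∧ B = 0 ∧ D = 0)) :
    ((Finset.range N).filter (fun x : ℕ => A * (x : ℂ) ^ 2 + B * x + D = 0)).card ≤ 2 := by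
  classical
  by_contra hc
  push Not at hc
  rw [Finset.two_lt_card] at hc
  obtain ⟨x, hx, y, hy, z, hz, hxy, hxz, hyz⟩ := hc
  have hx := (Finset.mem_filter.1 hx).2
  have hy := (Finset.mem_filter.1 hy).2
  have hz := (Finset.mem_filter.1 hz).2
  have hxy' : (x : ℂ) - y ≠ 0 := sub_ne_zero.2 (by exact_mod_cast hxy)
  have hxz' : (x : ℂ) - z ≠ 0 := sub_ne_zero.2 (by exact_mod_cast hxz)
  have hyz' : (y : ℂ) - z ≠ 0 := sub_ne_zero.2 (by exact_mod_cast hyz)
  have e1 : A * ((x : ℂ) + y) + B = 0 := by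
    have : ((x : ℂ) - y) * (A * ((x : ℂ) + y) + B) = 0 := by linear_combination hx - hy
    exact (mul_eq_zero.1 this).resolve_left hxy'
  have e2 : A * ((x : ℂ) + z) + B = 0 := by
    have : ((x : ℂ) - z) * (A * ((x : ℂ) + z) + B) = 0 := by linear_combination hx - hz
    exact (mul_eq_zero.1 this).resolve_left hxz'
  have e3 : A = 0 := by
    have : ((y : ℂ) - z) * A = 0 := by linear_combination e1 - e2
    exact (mul_eq_zero.1 this).resolve_left hyz'
  have e4 : B = 0 := by rw [e3] at e1; simpa using e1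
  have e5 : D = 0 := by rw [e3, e4] at hx; simpa using hx
  exact h ⟨e3, e4, e5⟩

/-- a set whose fibres over `range N` have at most `k` elements -/
lemma card_le_of_fibres {α : Type*} [DecidableEq α] (T : Finset α) (N k : ℕ) (f : α → ℕ)
    (hf : ∀ t ∈ T, f t ∈ Finset.range N)
    (h : ∀ x ∈ Finset.range N, (T.filter (fun t => f t = x)).card ≤ k) : T.card ≤ k * N := by
  rw [Finset.card_eq_sum_card_fiberwise hf]
  calc ∑ x ∈ Finset.range N, (T.filter (fun t => f t = x)).card
      ≤ ∑ x ∈ Finset.range N, k := Finset.sum_le_sum h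
    _ = k * N := by simp [mul_comm]

/-- the cube `[0, N)³` -/
def cube (N : ℕ) : Finset (ℕ × ℕ × ℕ) :=
  Finset.range N ×ˢ Finset.range N ×ˢ Finset.range N

lemma mem_cube {N : ℕ} {t : ℕ × ℕ × ℕ} : t ∈ cube N ↔ t.1 < N ∧ t.2.1 < N ∧ t.2.2 < N := by
  simp [cube, Finset.mem_product]

/-- filter on the zero set of a quadratic polynomial in one of the coordinates: if on the set `T`
the coordinate `g` is a zero of a fixed nonzero quadratic and determines the element, then
`#T ≤ 2`. -/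
lemma card_le_two {α : Type*} [DecidableEq α] (T : Finset α) (N : ℕ) (g : α → ℕ)
    (A B D : ℂ) (h : ¬ (A = 0 ∧ B = 0 ∧ D = 0)) (hg : ∀ t ∈ T, g t < N)
    (hz : ∀ t ∈ T, A * (g t : ℂ) ^ 2 + B * (g t : ℂ) + D = 0)
    (hinj : ∀ t ∈ T, ∀ t' ∈ T, g t = g t' → t = t') : T.card ≤ 2 := by
  have h1 : T.card = (T.image g).card := by
    rw [Finset.card_image_of_injOn]
    intro t ht t' ht' he
    exact hinj t ht t' ht' he
  rw [h1]
  refine le_trans (Finset.card_le_card ?_) (card_quad_le N A B D h)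
  intro x hx
  obtain ⟨t, ht, rfl⟩ := Finset.mem_image.1 hx
  exact Finset.mem_filter.2 ⟨Finset.mem_range.2 (hg t ht), hz t ht⟩

/-- three-dimensional count -/
lemma count3 (N : ℕ) (T : Finset (ℕ × ℕ × ℕ)) (hT : T ⊆ cube N) (al be ga de ep : ℂ)
    (hne : ¬ (al = 0 ∧ be = 0 ∧ ga = 0 ∧ de = 0))
    (h : ∀ t ∈ T, al * (t.1 : ℂ) + be * (t.2.1 : ℂ) + ga * (t.2.2 : ℂ) +
      de * ((t.1 : ℂ) * (t.2.2 : ℂ) - (t.2.1 : ℂ) ^ 2) = ep) : T.card ≤ 2 * N ^ 2 := by
  classical
  have hN2 : 2 * N ^ 2 = (2 * N) * N := by ring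
  rw [hN2]
  by_cases hde : de = 0
  · subst hde
    by_cases hga : ga = 0
    · subst hga
      by_cases hbe : be = 0
      · subst hbe
        have hal : al ≠ 0 := by
          intro h0
          exact hne ⟨h0, rfl, rfl, rfl⟩
        -- a is determined
        apply card_le_of_fibres T N (2 * N) (fun t => t.2.1)
          (fun t ht => Finset.mem_range.2 (mem_cube.1 (hT ht)).2.1)
        intro b hb
        apply card_le_of_fibres _ N 2 (fun t => t.2.2)
          (fun t ht => Finset.mem_range.2 (mem_cube.1 (hT (Finset.mem_filter.1 ht).1)).2.2)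
        intro c hc
        apply card_le_two _ N (fun t => t.1) 0 al (-ep) (by simp [hal])
        · intro t ht
          simp only [Finset.mem_filter] at ht
          exact (mem_cube.1 (hT ht.1.1)).1
        · intro t ht
          simp only [Finset.mem_filter] at ht
          have := h t ht.1.1
          linear_combination this
        · intro t ht t' ht' he
          simp only [Finset.mem_filter] at ht ht'
          exact Prod.ext he (Prod.ext (ht.1.2.trans ht'.1.2.symm) (ht.2.trans ht'.2.symm))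
      · apply card_le_of_fibres T N (2 * N) (fun t => t.1)
          (fun t ht => Finset.mem_range.2 (mem_cube.1 (hT ht)).1)
        intro a ha
        apply card_le_of_fibres _ N 2 (fun t => t.2.2)
          (fun t ht => Finset.mem_range.2 (mem_cube.1 (hT (Finset.mem_filter.1 ht).1)).2.2)
        intro c hc
        apply card_le_two _ N (fun t => t.2.1) 0 be (al * a - ep) (by simp [hbe])
        · intro t ht
          simp only [Finset.mem_filter] at ht
          exact (mem_cube.1 (hT ht.1.1)).2.1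
        · intro t ht
          simp only [Finset.mem_filter] at ht
          have := h t ht.1.1
          rw [ht.1.2] at this
          linear_combination this
        · intro t ht t' ht' he
          simp only [Finset.mem_filter] at ht ht'
          exact Prod.ext (ht.1.2.trans ht'.1.2.symm) (Prod.ext he (ht.2.trans ht'.2.symm))
    · apply card_le_of_fibres T N (2 * N) (fun t => t.1)
        (fun t ht => Finset.mem_range.2 (mem_cube.1 (hT ht)).1)
      intro a ha
      apply card_le_of_fibres _ N 2 (fun t => t.2.1)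
        (fun t ht => Finset.mem_range.2 (mem_cube.1 (hT (Finset.mem_filter.1 ht).1)).2.1)
      intro b hb
      apply card_le_two _ N (fun t => t.2.2) 0 ga (al * a + be * b - ep) (by simp [hga])
      · intro t ht
        simp only [Finset.mem_filter] at ht
        exact (mem_cube.1 (hT ht.1.1)).2.2
      · intro t ht
        simp only [Finset.mem_filter] at ht
        have := h t ht.1.1
        rw [ht.1.2, ht.2] at this
        linear_combination this
      · intro t ht t' ht' he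
        simp only [Finset.mem_filter] at ht ht'
        exact Prod.ext (ht.1.2.trans ht'.1.2.symm) (Prod.ext (ht.2.trans ht'.2.symm) he)
  · apply card_le_of_fibres T N (2 * N) (fun t => t.1)
      (fun t ht => Finset.mem_range.2 (mem_cube.1 (hT ht)).1)
    intro a ha
    apply card_le_of_fibres _ N 2 (fun t => t.2.2)
      (fun t ht => Finset.mem_range.2 (mem_cube.1 (hT (Finset.mem_filter.1 ht).1)).2.2)
    intro c hc
    apply card_le_two _ N (fun t => t.2.1) (-de) be (al * a + ga * c + de * (a * c) - ep)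
      (by simp [hde])
    · intro t ht
      simp only [Finset.mem_filter] at ht
      exact (mem_cube.1 (hT ht.1.1)).2.1
    · intro t ht
      simp only [Finset.mem_filter] at ht
      have := h t ht.1.1
      rw [ht.1.2, ht.2] at this
      linear_combination this
    · intro t ht t' ht' he
      simp only [Finset.mem_filter] at ht ht'
      exact Prod.ext (ht.1.2.trans ht'.1.2.symm) (Prod.ext he (ht.2.trans ht'.2.symm))

/-- two-dimensional count, quadratic case -/
lemma count2q (N : ℕ) (T : Finset (ℕ × ℕ × ℕ)) (hT : T ⊆ cube N) (al be ga ep p q s t0 : ℂ)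
    (hne : ¬ (al = 0 ∧ be = 0 ∧ ga = 0))
    (h1 : ∀ t ∈ T, al * (t.1 : ℂ) + be * (t.2.1 : ℂ) + ga * (t.2.2 : ℂ) = ep)
    (h2 : ∀ t ∈ T, (t.1 : ℂ) * (t.2.2 : ℂ) - (t.2.1 : ℂ) ^ 2 =
      p * (t.1 : ℂ) + q * (t.2.1 : ℂ) + s * (t.2.2 : ℂ) + t0) : T.card ≤ 2 * N := by
  classical
  by_cases hga : ga = 0
  · subst hga
    by_cases hal : al = 0
    · subst hal
      have hbe : be ≠ 0 := by
        intro h0
        exact hne ⟨rfl, h0, rfl⟩
      -- b is constant
      have hb : ∀ t ∈ T, (t.2.1 : ℂ) = ep / be := by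
        intro t ht
        have := h1 t ht
        field_simp
        linear_combination this
      have hbn : ∀ t ∈ T, ∀ t' ∈ T, t.2.1 = t'.2.1 := by
        intro t ht t' ht'
        have := (hb t ht).trans (hb t' ht').symm
        exact_mod_cast this
      -- split according to a = s or not
      have hsplit : T.card = (T.filter (fun t => (t.1 : ℂ) = s)).card +
          (T.filter (fun t => ¬ (t.1 : ℂ) = s)).card :=
        (Finset.card_filter_add_card_filter_not _).symm
      have c1 : (T.filter (fun t => (t.1 : ℂ) = s)).card ≤ 1 * N := by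
        apply card_le_of_fibres _ N 1 (fun t => t.2.2)
          (fun t ht => Finset.mem_range.2 (mem_cube.1 (hT (Finset.mem_filter.1 ht).1)).2.2)
        intro c hc
        rw [Finset.card_le_one]
        intro t ht t' ht'
        simp only [Finset.mem_filter] at ht ht'
        have e1 : t.1 = t'.1 := by
          have := ht.1.2.trans ht'.1.2.symm
          exact_mod_cast this
        exact Prod.ext e1 (Prod.ext (hbn t ht.1.1 t' ht'.1.1) (ht.2.trans ht'.2.symm))
      have c2 : (T.filter (fun t => ¬ (t.1 : ℂ) = s)).card ≤ 1 * N := by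
        apply card_le_of_fibres _ N 1 (fun t => t.1)
          (fun t ht => Finset.mem_range.2 (mem_cube.1 (hT (Finset.mem_filter.1 ht).1)).1)
        intro a ha
        rw [Finset.card_le_one]
        intro t ht t' ht'
        simp only [Finset.mem_filter] at ht ht'
        have e1 : t.1 = t'.1 := ht.2.trans ht'.2.symm
        have e2 := hbn t ht.1.1 t' ht'.1.1
        have e3 := h2 t ht.1.1
        have e4 := h2 t' ht'.1.1
        have e5 : ((t.1 : ℂ) - s) * ((t.2.2 : ℂ) - t'.2.2) = 0 := by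
          rw [← e1, ← e2] at e4
          linear_combination e3 - e4
        have e6 : (t.2.2 : ℂ) = t'.2.2 :=
          sub_eq_zero.1 ((mul_eq_zero.1 e5).resolve_left (sub_ne_zero.2 ht.1.2))
        exact Prod.ext e1 (Prod.ext e2 (by exact_mod_cast e6))
      omega
    · -- a is a function of b
      have ha : ∀ t ∈ T, (t.1 : ℂ) = (ep - be * (t.2.1 : ℂ)) / al := by
        intro t ht
        have := h1 t ht
        field_simp
        linear_combination this
      apply card_le_of_fibres T N 2 (fun t => t.2.2)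
        (fun t ht => Finset.mem_range.2 (mem_cube.1 (hT ht)).2.2)
      intro c hc
      apply card_le_two _ N (fun t => t.2.1) (-1) (-(be / al) * c + p * (be / al) - q)
        (ep / al * c - p * (ep / al) - s * c - t0) (by simp)
      · intro t ht
        simp only [Finset.mem_filter] at ht
        exact (mem_cube.1 (hT ht.1)).2.1
      · intro t ht
        simp only [Finset.mem_filter] at ht
        have e1 := h2 t ht.1
        rw [ha t ht.1, ht.2] at e1
        linear_combination e1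
      · intro t ht t' ht' he
        simp only [Finset.mem_filter] at ht ht'
        have e1 : (t.1 : ℂ) = t'.1 := by
          rw [ha t ht.1, ha t' ht'.1]
          have he' : t.2.1 = t'.2.1 := he
          rw [he']
        exact Prod.ext (by exact_mod_cast e1) (Prod.ext he (ht.2.trans ht'.2.symm))
  · -- c is a function of a and b
    have hc : ∀ t ∈ T, (t.2.2 : ℂ) = (ep - al * (t.1 : ℂ) - be * (t.2.1 : ℂ)) / ga := by
      intro t ht
      have := h1 t ht
      field_simp
      linear_combination this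
    apply card_le_of_fibres T N 2 (fun t => t.1)
      (fun t ht => Finset.mem_range.2 (mem_cube.1 (hT ht)).1)
    intro a ha
    apply card_le_two _ N (fun t => t.2.1) (-1) (-(be / ga) * a + s * (be / ga) - q)
      (a * ((ep - al * a) / ga) - p * a - s * ((ep - al * a) / ga) - t0) (by simp)
    · intro t ht
      simp only [Finset.mem_filter] at ht
      exact (mem_cube.1 (hT ht.1)).2.1
    · intro t ht
      simp only [Finset.mem_filter] at ht
      have e1 := h2 t ht.1
      rw [hc t ht.1, ht.2] at e1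
      linear_combination e1
    · intro t ht t' ht' he
      simp only [Finset.mem_filter] at ht ht'
      have he' : t.2.1 = t'.2.1 := he
      have e1 : (t.2.2 : ℂ) = t'.2.2 := by
        rw [hc t ht.1, hc t' ht'.1, he', ht.2, ht'.2]
      exact Prod.ext (ht.2.trans ht'.2.symm) (Prod.ext he (by exact_mod_cast e1))

/-- two-dimensional count, linear case -/
lemma count2l (N : ℕ) (T : Finset (ℕ × ℕ × ℕ)) (hT : T ⊆ cube N)
    (al be ga ep al' be' ga' ep' : ℂ)
    (hne : ¬ (al * be' = al' * be ∧ al * ga' = al' * ga ∧ be * ga' = be' * ga))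
    (h1 : ∀ t ∈ T, al * (t.1 : ℂ) + be * (t.2.1 : ℂ) + ga * (t.2.2 : ℂ) = ep)
    (h2 : ∀ t ∈ T, al' * (t.1 : ℂ) + be' * (t.2.1 : ℂ) + ga' * (t.2.2 : ℂ) = ep') :
    T.card ≤ 2 * N := by
  classical
  have key : T.card ≤ 1 * N := by
    by_cases h3 : al * be' = al' * be
    · by_cases h4 : al * ga' = al' * ga
      · have h5 : be * ga' - be' * ga ≠ 0 := fun h => hne ⟨h3, h4, sub_eq_zero.1 h⟩
        apply card_le_of_fibres _ N 1 (fun t => t.1)
          (fun t ht => Finset.mem_range.2 (mem_cube.1 (hT ht)).1)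
        intro a ha
        rw [Finset.card_le_one]
        intro t ht t' ht'
        simp only [Finset.mem_filter] at ht ht'
        have e0 : t.1 = t'.1 := ht.2.trans ht'.2.symm
        have f1 := h1 t ht.1
        have f2 := h2 t ht.1
        have f3 := h1 t' ht'.1
        have f4 := h2 t' ht'.1
        rw [← e0] at f3 f4
        have e1 : (be * ga' - be' * ga) * ((t.2.1 : ℂ) - t'.2.1) = 0 := by
          linear_combination ga' * (f1 - f3) - ga * (f2 - f4)
        have e2 : (be * ga' - be' * ga) * ((t.2.2 : ℂ) - t'.2.2) = 0 := by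
          linear_combination be * (f2 - f4) - be' * (f1 - f3)
        have e3 := sub_eq_zero.1 ((mul_eq_zero.1 e1).resolve_left h5)
        have e4 := sub_eq_zero.1 ((mul_eq_zero.1 e2).resolve_left h5)
        exact Prod.ext e0 (Prod.ext (by exact_mod_cast e3) (by exact_mod_cast e4))
      · have h5 : al * ga' - al' * ga ≠ 0 := sub_ne_zero.2 h4
        apply card_le_of_fibres _ N 1 (fun t => t.2.1)
          (fun t ht => Finset.mem_range.2 (mem_cube.1 (hT ht)).2.1)
        intro a ha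
        rw [Finset.card_le_one]
        intro t ht t' ht'
        simp only [Finset.mem_filter] at ht ht'
        have e0 : t.2.1 = t'.2.1 := ht.2.trans ht'.2.symm
        have f1 := h1 t ht.1
        have f2 := h2 t ht.1
        have f3 := h1 t' ht'.1
        have f4 := h2 t' ht'.1
        rw [← e0] at f3 f4
        have e1 : (al * ga' - al' * ga) * ((t.1 : ℂ) - t'.1) = 0 := by
          linear_combination ga' * (f1 - f3) - ga * (f2 - f4)
        have e2 : (al * ga' - al' * ga) * ((t.2.2 : ℂ) - t'.2.2) = 0 := by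
          linear_combination al * (f2 - f4) - al' * (f1 - f3)
        have e3 := sub_eq_zero.1 ((mul_eq_zero.1 e1).resolve_left h5)
        have e4 := sub_eq_zero.1 ((mul_eq_zero.1 e2).resolve_left h5)
        exact Prod.ext (by exact_mod_cast e3) (Prod.ext e0 (by exact_mod_cast e4))
    · have h5 : al * be' - al' * be ≠ 0 := sub_ne_zero.2 h3
      apply card_le_of_fibres _ N 1 (fun t => t.2.2)
        (fun t ht => Finset.mem_range.2 (mem_cube.1 (hT ht)).2.2)
      intro a ha
      rw [Finset.card_le_one]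
      intro t ht t' ht'
      simp only [Finset.mem_filter] at ht ht'
      have e0 : t.2.2 = t'.2.2 := ht.2.trans ht'.2.symm
      have f1 := h1 t ht.1
      have f2 := h2 t ht.1
      have f3 := h1 t' ht'.1
      have f4 := h2 t' ht'.1
      rw [← e0] at f3 f4
      have e1 : (al * be' - al' * be) * ((t.1 : ℂ) - t'.1) = 0 := by
        linear_combination be' * (f1 - f3) - be * (f2 - f4)
      have e2 : (al * be' - al' * be) * ((t.2.1 : ℂ) - t'.2.1) = 0 := by
        linear_combination al * (f2 - f4) - al' * (f1 - f3)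
      have e3 := sub_eq_zero.1 ((mul_eq_zero.1 e1).resolve_left h5)
      have e4 := sub_eq_zero.1 ((mul_eq_zero.1 e2).resolve_left h5)
      exact Prod.ext (by exact_mod_cast e3) (Prod.ext (by exact_mod_cast e4) e0)
  omega

/-! ### The point set -/

/-- the point `(a, b, c, a c - b², 0, …, 0)` of `ℂ^d` -/
def pt (d : ℕ) (t : ℕ × ℕ × ℕ) : Fin d → ℂ := fun i =>
  if (i : ℕ) = 0 then (t.1 : ℂ) else if (i : ℕ) = 1 then (t.2.1 : ℂ) else
  if (i : ℕ) = 2 then (t.2.2 : ℂ) else
  if (i : ℕ) = 3 then (t.1 : ℂ) * (t.2.2 : ℂ) - (t.2.1 : ℂ) ^ 2 else 0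

/-- the direction `(σ², σ, 1, a + σ² c - 2 b σ, 0, …, 0)` of the line through `pt d (a, b, c)` -/
def dir (d : ℕ) (σ : ℕ) (t : ℕ × ℕ × ℕ) : Fin d → ℂ := fun i =>
  if (i : ℕ) = 0 then (σ : ℂ) ^ 2 else if (i : ℕ) = 1 then (σ : ℂ) else
  if (i : ℕ) = 2 then 1 else
  if (i : ℕ) = 3 then (t.1 : ℂ) + (σ : ℂ) ^ 2 * (t.2.2 : ℂ) - 2 * (t.2.1 : ℂ) * σ else 0

lemma pt_add (d σ k : ℕ) (t : ℕ × ℕ × ℕ) :
    pt d (t.1 + k * σ ^ 2, t.2.1 + k * σ, t.2.2 + k) = pt d t + (k : ℂ) • dir d σ t := by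
  funext i
  simp only [pt, dir, Pi.add_apply, Pi.smul_apply, smul_eq_mul]
  split_ifs
  · push_cast; ring
  · push_cast; ring
  · push_cast; ring
  · push_cast; ring
  · ring

lemma pt_injective {d : ℕ} (hd : 4 ≤ d) : Function.Injective (pt d) := by
  intro t t' h
  have h0 := congrFun h ⟨0, by omega⟩
  have h1 := congrFun h ⟨1, by omega⟩
  have h2 := congrFun h ⟨2, by omega⟩
  simp only [pt] at h0 h1 h2
  norm_num at h0 h1 h2
  exact Prod.ext h0 (Prod.ext h1 h2)

open Classical in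
/-- the set of points -/
noncomputable def V (d N : ℕ) : Finset (Fin d → ℂ) := (cube N).image (pt d)

lemma card_V {d : ℕ} (hd : 4 ≤ d) (N : ℕ) : (V d N).card = N ^ 3 := by
  classical
  rw [V, Finset.card_image_of_injective _ (pt_injective hd), cube, Finset.card_product,
    Finset.card_product, Finset.card_range]
  ring

open Classical in
lemma ncard_le {d : ℕ} (N K : ℕ) (F : AffineSubspace ℂ (Fin d → ℂ))
    (h : ((cube N).filter (fun t => pt d t ∈ F)).card ≤ K) :
    {p | p ∈ V d N ∧ p ∈ F}.ncard ≤ K := by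
  have : {p | p ∈ V d N ∧ p ∈ F} =
      (((cube N).filter (fun t => pt d t ∈ F)).image (pt d) : Finset (Fin d → ℂ)) := by
    ext p
    simp only [V, Finset.mem_image, Set.mem_ofPred_eq, Finset.coe_image, Finset.coe_filter,
      Set.mem_image]
    constructor
    · rintro ⟨⟨t, ht, rfl⟩, hF⟩
      exact ⟨t, ⟨ht, hF⟩, rfl⟩
    · rintro ⟨t, ⟨ht, hF⟩, rfl⟩
      exact ⟨⟨t, ht, rfl⟩, hF⟩
  rw [this, Set.ncard_coe_finset]
  exact Finset.card_image_le.trans h

/-- a functional that vanishes on the image of the direction is constant on the flat -/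
lemma const_on {d m : ℕ} (π : (Fin d → ℂ) →ₗ[ℂ] (Fin m → ℂ)) (φ : (Fin m → ℂ) →ₗ[ℂ] ℂ)
    (F : AffineSubspace ℂ (Fin d → ℂ)) (h : F.direction.map π ≤ LinearMap.ker φ) :
    ∃ ep : ℂ, ∀ p ∈ F, φ (π p) = ep := by
  by_cases hne : ∃ p0, p0 ∈ F
  · obtain ⟨p0, hp0⟩ := hne
    refine ⟨φ (π p0), fun p hp => ?_⟩
    have h1 : p -ᵥ p0 ∈ F.direction := AffineSubspace.vsub_mem_direction hp hp0
    have h2 : π (p -ᵥ p0) ∈ LinearMap.ker φ := h (Submodule.mem_map_of_mem h1)
    rw [LinearMap.mem_ker, vsub_eq_sub, map_sub, map_sub, sub_eq_zero] at h2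
    exact h2
  · push Not at hne
    exact ⟨0, fun p hp => absurd hp (hne p)⟩

/-- A flat of dimension at most `3` contains at most `2 N²` points. -/
lemma flat3 {d : ℕ} (hd : 4 ≤ d) (N : ℕ) (F : AffineSubspace ℂ (Fin d → ℂ))
    (hF : Module.finrank ℂ F.direction ≤ 3) : {p | p ∈ V d N ∧ p ∈ F}.ncard ≤ 2 * N ^ 2 := by
  classical
  apply ncard_le
  set π : (Fin d → ℂ) →ₗ[ℂ] (Fin 4 → ℂ) := LinearMap.funLeft ℂ ℂ (Fin.castLE hd) with hπ
  have hlt : F.direction.map π < ⊤ := by
    rw [lt_top_iff_ne_top]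
    intro h
    have h1 := Submodule.finrank_map_le π F.direction
    rw [h, finrank_top, Module.finrank_fin_fun] at h1
    omega
  obtain ⟨φ, hφ, hker⟩ := Submodule.exists_le_ker_of_lt_top _ hlt
  obtain ⟨ep, hep⟩ := const_on π φ F hker
  have hφx : ∀ x : Fin 4 → ℂ, φ x = x 0 * φ (fun j => if 0 = j then 1 else 0) +
      x 1 * φ (fun j => if 1 = j then 1 else 0) + x 2 * φ (fun j => if 2 = j then 1 else 0) +
      x 3 * φ (fun j => if 3 = j then 1 else 0) := by
    intro x
    rw [LinearMap.pi_apply_eq_sum_univ φ x, Fin.sum_univ_four]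
    simp only [smul_eq_mul]
  apply count3 N _ (Finset.filter_subset _ _) (φ (fun j => if 0 = j then 1 else 0))
    (φ (fun j => if 1 = j then 1 else 0)) (φ (fun j => if 2 = j then 1 else 0))
    (φ (fun j => if 3 = j then 1 else 0)) ep
  · rintro ⟨h0, h1, h2, h3⟩
    apply hφ
    ext x
    rw [LinearMap.comp_apply, hφx, h0, h1, h2, h3]
    simp
  · intro t ht
    have h1 := hep _ (Finset.mem_filter.1 ht).2
    rw [hφx] at h1
    simp only [hπ, LinearMap.funLeft_apply, pt] at h1
    norm_num at h1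
    linear_combination h1

/-- A flat of dimension at most `2` contains at most `2 N` points. -/
lemma flat2 {d : ℕ} (hd : 4 ≤ d) (N : ℕ) (F : AffineSubspace ℂ (Fin d → ℂ))
    (hF : Module.finrank ℂ F.direction ≤ 2) : {p | p ∈ V d N ∧ p ∈ F}.ncard ≤ 2 * N := by
  classical
  apply ncard_le
  have hd3 : 3 ≤ d := by omega
  set π3 : (Fin d → ℂ) →ₗ[ℂ] (Fin 3 → ℂ) := LinearMap.funLeft ℂ ℂ (Fin.castLE hd3) with hπ3
  have hlt3 : F.direction.map π3 < ⊤ := by
    rw [lt_top_iff_ne_top]
    intro h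
    have h1 := Submodule.finrank_map_le π3 F.direction
    rw [h, finrank_top, Module.finrank_fin_fun] at h1
    omega
  obtain ⟨φ1, hφ1, hker1⟩ := Submodule.exists_le_ker_of_lt_top _ hlt3
  obtain ⟨ep1, hep1⟩ := const_on π3 φ1 F hker1
  have hφ1x : ∀ x : Fin 3 → ℂ, φ1 x = x 0 * φ1 (fun j => if 0 = j then 1 else 0) +
      x 1 * φ1 (fun j => if 1 = j then 1 else 0) +
      x 2 * φ1 (fun j => if 2 = j then 1 else 0) := by
    intro x
    rw [LinearMap.pi_apply_eq_sum_univ φ1 x, Fin.sum_univ_three]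
    simp only [smul_eq_mul]
  set al := φ1 (fun j => if 0 = j then 1 else 0)
  set be := φ1 (fun j => if 1 = j then 1 else 0)
  set ga := φ1 (fun j => if 2 = j then 1 else 0)
  have hne1 : ¬ (al = 0 ∧ be = 0 ∧ ga = 0) := by
    rintro ⟨h0, h1, h2⟩
    apply hφ1
    apply LinearMap.ext
    intro x
    rw [hφ1x, h0, h1, h2]
    simp
  -- the second functional
  set π : (Fin d → ℂ) →ₗ[ℂ] (Fin 4 → ℂ) := LinearMap.funLeft ℂ ℂ (Fin.castLE hd) with hπ
  set ψ : (Fin 4 → ℂ) →ₗ[ℂ] ℂ :=
    φ1.comp (LinearMap.funLeft ℂ ℂ (Fin.castLE (by norm_num : 3 ≤ 4))) with hψ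
  have hψx : ∀ x : Fin 4 → ℂ, ψ x = x 0 * al + x 1 * be + x 2 * ga := by
    intro x
    rw [hψ, LinearMap.comp_apply, hφ1x]
    rfl
  have hex : ∃ x ∈ LinearMap.ker ψ, x ∉ F.direction.map π := by
    by_contra hcon
    push Not at hcon
    have h1 : LinearMap.ker ψ ≤ F.direction.map π := hcon
    have h2 := Submodule.finrank_mono h1
    have h3 := Submodule.finrank_map_le π F.direction
    have h4 := LinearMap.finrank_range_add_finrank_ker ψ
    rw [Module.finrank_fin_fun] at h4
    have h5 : Module.finrank ℂ (LinearMap.range ψ) ≤ 1 := by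
      have := Submodule.finrank_le (LinearMap.range ψ)
      rwa [Module.finrank_self] at this
    omega
  obtain ⟨x, hxker, hxD⟩ := hex
  obtain ⟨φ2, hφ2, hker2⟩ := Submodule.exists_le_ker_of_notMem hxD
  obtain ⟨ep2, hep2⟩ := const_on π φ2 F hker2
  have hφ2x : ∀ x : Fin 4 → ℂ, φ2 x = x 0 * φ2 (fun j => if 0 = j then 1 else 0) +
      x 1 * φ2 (fun j => if 1 = j then 1 else 0) + x 2 * φ2 (fun j => if 2 = j then 1 else 0) +
      x 3 * φ2 (fun j => if 3 = j then 1 else 0) := by
    intro x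
    rw [LinearMap.pi_apply_eq_sum_univ φ2 x, Fin.sum_univ_four]
    simp only [smul_eq_mul]
  set al' := φ2 (fun j => if 0 = j then 1 else 0)
  set be' := φ2 (fun j => if 1 = j then 1 else 0)
  set ga' := φ2 (fun j => if 2 = j then 1 else 0)
  set de' := φ2 (fun j => if 3 = j then 1 else 0)
  have H1 : ∀ t ∈ (cube N).filter (fun t => pt d t ∈ F),
      al * (t.1 : ℂ) + be * (t.2.1 : ℂ) + ga * (t.2.2 : ℂ) = ep1 := by
    intro t ht
    have h1 := hep1 _ (Finset.mem_filter.1 ht).2
    rw [hφ1x] at h1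
    simp only [hπ3, LinearMap.funLeft_apply, pt] at h1
    norm_num at h1
    linear_combination h1
  have H2 : ∀ t ∈ (cube N).filter (fun t => pt d t ∈ F),
      al' * (t.1 : ℂ) + be' * (t.2.1 : ℂ) + ga' * (t.2.2 : ℂ) +
        de' * ((t.1 : ℂ) * (t.2.2 : ℂ) - (t.2.1 : ℂ) ^ 2) = ep2 := by
    intro t ht
    have h1 := hep2 _ (Finset.mem_filter.1 ht).2
    rw [hφ2x] at h1
    simp only [hπ, LinearMap.funLeft_apply, pt] at h1
    norm_num at h1
    linear_combination h1
  by_cases hde : de' = 0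
  · apply count2l N _ (Finset.filter_subset _ _) al be ga ep1 al' be' ga' ep2 _ H1
    · intro t ht
      have := H2 t ht
      rw [hde] at this
      linear_combination this
    · rintro ⟨h1, h2, h3⟩
      apply hφ2
      rw [hφ2x, hde]
      have h4 : x 0 * al + x 1 * be + x 2 * ga = 0 := by
        rw [← hψx]
        exact hxker
      by_cases hal : al = 0
      · by_cases hbe : be = 0
        · have hga : ga ≠ 0 := fun h => hne1 ⟨hal, hbe, h⟩
          have : ga * (x 0 * al' + x 1 * be' + x 2 * ga' + x 3 * 0) = 0 := by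
            linear_combination ga' * h4 - x 0 * h2 - x 1 * h3
          exact (mul_eq_zero.1 this).resolve_left hga
        · have : be * (x 0 * al' + x 1 * be' + x 2 * ga' + x 3 * 0) = 0 := by
            linear_combination be' * h4 - x 0 * h1 + x 2 * h3
          exact (mul_eq_zero.1 this).resolve_left hbe
      · have : al * (x 0 * al' + x 1 * be' + x 2 * ga' + x 3 * 0) = 0 := by
          linear_combination al' * h4 + x 1 * h1 + x 2 * h2
        exact (mul_eq_zero.1 this).resolve_left hal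
  · apply count2q N _ (Finset.filter_subset _ _) al be ga ep1 (-al' / de') (-be' / de')
      (-ga' / de') (ep2 / de') hne1 H1
    intro t ht
    have := H2 t ht
    field_simp
    linear_combination this

lemma s_le_of {d : ℕ} (W : Finset (Fin d → ℂ)) (l K : ℕ)
    (h : ∀ F : AffineSubspace ℂ (Fin d → ℂ), Module.finrank ℂ F.direction = l →
      {p | p ∈ W ∧ p ∈ F}.ncard ≤ K) : s W l ≤ K := by
  unfold s
  rcases Set.eq_empty_or_nonempty {k | ∃ F : AffineSubspace ℂ (Fin d → ℂ),
    (F : Set (Fin d → ℂ)).Nonempty ∧ Module.finrank ℂ F.direction = l ∧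
      k = {p | p ∈ W ∧ p ∈ F}.ncard} with he | hne
  · rw [he]
    simp
  · apply csSup_le hne
    rintro k ⟨F, -, hF, rfl⟩
    exact h F hF

lemma s_le_card {d : ℕ} (W : Finset (Fin d → ℂ)) (l : ℕ) : s W l ≤ W.card := by
  apply s_le_of
  intro F _
  rw [← Set.ncard_coe_finset]
  exact Set.ncard_le_ncard (fun p hp => hp.1) (Finset.finite_toSet _)

/-! ### The lines -/

lemma dir_ne_zero {d : ℕ} (hd : 4 ≤ d) (σ : ℕ) (t : ℕ × ℕ × ℕ) : dir d σ t ≠ 0 := by
  intro h
  have := congrFun h ⟨2, by omega⟩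
  simp [dir] at this

/-- the line through `pt d t` with direction `dir d σ t` -/
def ln (d : ℕ) (u : ℕ × ℕ × ℕ × ℕ) : AffineSubspace ℂ (Fin d → ℂ) :=
  AffineSubspace.mk' (pt d u.2) (Submodule.span ℂ {dir d u.1 u.2})

/-- the indices of the lines -/
def idx (j : ℕ) : Finset (ℕ × ℕ × ℕ × ℕ) :=
  Finset.Ico j (2 * j) ×ˢ Finset.range (j ^ 2) ×ˢ Finset.range (4 * j ^ 8) ×ˢ
    Finset.range (4 * j ^ 8)

lemma card_idx (j : ℕ) : (idx j).card = 16 * j ^ 19 := by
  simp only [idx, Finset.card_product, Nat.card_Ico, Finset.card_range]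
  have : 2 * j - j = j := by omega
  rw [this]
  ring

lemma ln_injOn {d : ℕ} (hd : 4 ≤ d) (j : ℕ) (hj : 1 ≤ j) :
    Set.InjOn (ln d) (idx j : Set (ℕ × ℕ × ℕ × ℕ)) := by
  rintro ⟨σ, a, b, c⟩ hu ⟨σ', a', b', c'⟩ hu' h
  simp only [idx, Finset.coe_product, Set.mem_prod, Finset.mem_coe, Finset.mem_Ico,
    Finset.mem_range] at hu hu'
  obtain ⟨⟨h1, h2⟩, h3, -, -⟩ := hu
  obtain ⟨⟨h1', h2'⟩, h3', -, -⟩ := hu'
  -- directions
  have hdir : Submodule.span ℂ {dir d σ (a, b, c)} = Submodule.span ℂ {dir d σ' (a', b', c')} := by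
    have := congrArg AffineSubspace.direction h
    simpa [ln, AffineSubspace.direction_mk'] using this
  have hmem : dir d σ' (a', b', c') ∈ Submodule.span ℂ {dir d σ (a, b, c)} := by
    rw [hdir]
    exact Submodule.mem_span_singleton_self _
  obtain ⟨lam, hlam⟩ := Submodule.mem_span_singleton.1 hmem
  have e2 := congrFun hlam ⟨2, by omega⟩
  have e1 := congrFun hlam ⟨1, by omega⟩
  simp only [dir, Pi.smul_apply, smul_eq_mul] at e1 e2
  norm_num at e1 e2
  rw [e2, one_mul] at e1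
  have hσ : σ = σ' := by exact_mod_cast e1
  subst hσ
  have hp : pt d (a', b', c') ∈ ln d (σ, a, b, c) := by
    rw [h]
    exact AffineSubspace.self_mem_mk' _ _
  rw [ln, AffineSubspace.mem_mk'] at hp
  obtain ⟨tau, htau⟩ := Submodule.mem_span_singleton.1 hp
  have f0 := congrFun htau ⟨0, by omega⟩
  have f1 := congrFun htau ⟨1, by omega⟩
  have f2 := congrFun htau ⟨2, by omega⟩
  simp only [dir, pt, Pi.smul_apply, smul_eq_mul, vsub_eq_sub, Pi.sub_apply] at f0 f1 f2
  norm_num at f0 f1 f2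
  -- f2 : tau = c' - c
  rw [f2] at f0 f1
  have g0 : ((c' : ℤ) - c) * σ ^ 2 = a' - a := by exact_mod_cast f0
  have g1 : ((c' : ℤ) - c) * σ = b' - b := by exact_mod_cast f1
  have hs2 : (j : ℤ) ^ 2 ≤ (σ : ℤ) ^ 2 := by
    have : (j : ℤ) ≤ σ := by exact_mod_cast h1
    exact pow_le_pow_left₀ (by positivity) this 2
  have h3z : (a : ℤ) < (j : ℤ) ^ 2 := by exact_mod_cast h3
  have h3z' : (a' : ℤ) < (j : ℤ) ^ 2 := by exact_mod_cast h3'
  have hj2 : (1 : ℤ) ≤ (j : ℤ) ^ 2 := by
    have : (1 : ℤ) ≤ j := by exact_mod_cast hj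
    exact one_le_pow₀ this
  have hc0 : (c' : ℤ) - c = 0 := by
    by_contra hne
    rcases lt_or_gt_of_ne hne with hlt | hgt
    · have h5 : (c' : ℤ) - c ≤ -1 := by omega
      have h6 : ((c' : ℤ) - c) * σ ^ 2 ≤ -1 * σ ^ 2 :=
        mul_le_mul_of_nonneg_right h5 (by positivity)
      have : (0 : ℤ) ≤ a' := by positivity
      linarith
    · have h5 : (1 : ℤ) ≤ (c' : ℤ) - c := by omega
      have h6 : 1 * (σ : ℤ) ^ 2 ≤ ((c' : ℤ) - c) * σ ^ 2 :=
        mul_le_mul_of_nonneg_right h5 (by positivity)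
      have : (0 : ℤ) ≤ a := by positivity
      linarith
  rw [hc0] at g0 g1
  have k0 : a = a' := by
    have : (a : ℤ) = a' := by linarith
    exact_mod_cast this
  have k1 : b = b' := by
    have : (b : ℤ) = b' := by linarith
    exact_mod_cast this
  have k2 : c = c' := by
    have : (c : ℤ) = c' := by linarith
    exact_mod_cast this
  subst k0; subst k1; subst k2
  rfl

lemma ln_rich {d : ℕ} (hd : 4 ≤ d) (j : ℕ) (hj : 1 ≤ j) {u : ℕ × ℕ × ℕ × ℕ} (hu : u ∈ idx j) :
    ln d u ∈ richLines (V d (8 * j ^ 8)) (j ^ 6) := by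
  classical
  obtain ⟨σ, a, b, c⟩ := u
  simp only [idx, Finset.mem_product, Finset.mem_Ico, Finset.mem_range] at hu
  obtain ⟨⟨h1, h2⟩, h3, h4, h5⟩ := hu
  constructor
  · rw [ln, AffineSubspace.direction_mk']
    exact finrank_span_singleton (dir_ne_zero hd _ _)
  · -- the points with parameter k < j^6
    set f : ℕ → (Fin d → ℂ) := fun k => pt d (a + k * σ ^ 2, b + k * σ, c + k) with hf
    have hinj : Function.Injective f := by
      intro k k' hkk
      have := pt_injective hd hkk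
      simp only [Prod.mk.injEq] at this
      omega
    have hsub : (((Finset.range (j ^ 6)).image f : Finset (Fin d → ℂ)) : Set (Fin d → ℂ)) ⊆
        {p | p ∈ V d (8 * j ^ 8) ∧ p ∈ ln d (σ, a, b, c)} := by
      intro p hp
      rw [Finset.mem_coe, Finset.mem_image] at hp
      obtain ⟨k, hk, rfl⟩ := hp
      rw [Finset.mem_range] at hk
      constructor
      · apply Finset.mem_image_of_mem
        rw [mem_cube]
        have hj8 : j ^ 8 = j ^ 6 * j ^ 2 := by ring
        have hs2 : σ ^ 2 ≤ 4 * j ^ 2 := by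
          have : σ ≤ 2 * j := by omega
          calc σ ^ 2 ≤ (2 * j) ^ 2 := Nat.pow_le_pow_left this 2
            _ = 4 * j ^ 2 := by ring
        have hj2 : j ^ 2 ≤ j ^ 8 := Nat.pow_le_pow_right hj (by norm_num)
        have hj7 : j ^ 7 ≤ j ^ 8 := Nat.pow_le_pow_right hj (by norm_num)
        have hj6 : j ^ 6 ≤ j ^ 8 := Nat.pow_le_pow_right hj (by norm_num)
        have hk2 : k * σ ^ 2 ≤ 4 * j ^ 8 := by
          calc k * σ ^ 2 ≤ j ^ 6 * (4 * j ^ 2) := Nat.mul_le_mul hk.le hs2
            _ = 4 * j ^ 8 := by ring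
        have hk1 : k * σ ≤ 2 * j ^ 8 := by
          calc k * σ ≤ j ^ 6 * (2 * j) := Nat.mul_le_mul hk.le (by omega)
            _ = 2 * j ^ 7 := by ring
            _ ≤ 2 * j ^ 8 := by omega
        have hj8pos : 1 ≤ j ^ 8 := Nat.one_le_pow _ _ hj
        refine ⟨?_, ?_, ?_⟩
        · simp only
          omega
        · simp only
          omega
        · simp only
          omega
      · have he : f k = pt d (a, b, c) + (k : ℂ) • dir d σ (a, b, c) := pt_add d σ k (a, b, c)
        rw [he, ln, AffineSubspace.mem_mk', vsub_eq_sub, add_sub_cancel_left]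
        exact Submodule.smul_mem _ _ (Submodule.mem_span_singleton_self _)
    have hfin : {p | p ∈ V d (8 * j ^ 8) ∧ p ∈ ln d (σ, a, b, c)}.Finite :=
      (Finset.finite_toSet (V d (8 * j ^ 8))).subset (fun p hp => hp.1)
    have := Set.ncard_le_ncard hsub hfin
    rwa [Set.ncard_coe_finset, Finset.card_image_of_injective _ hinj, Finset.card_range] at this

lemma richLines_finite {d : ℕ} (W : Finset (Fin d → ℂ)) (r : ℕ) (hr : 2 ≤ r) :
    (richLines W r).Finite := by
  classical
  apply ((Finset.finite_toSet (W ×ˢ W)).image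
    (fun q : (Fin d → ℂ) × (Fin d → ℂ) => AffineSubspace.mk' q.1 (Submodule.span ℂ {q.2 - q.1}))).subset
  rintro L ⟨hL1, hL2⟩
  have hfin : {p | p ∈ W ∧ p ∈ L}.Finite := (Finset.finite_toSet W).subset (fun p hp => hp.1)
  obtain ⟨p, q, hp, hq, hpq⟩ := (Set.one_lt_ncard_iff hfin).1 (by omega : 1 < _)
  refine ⟨(p, q), by simpa using ⟨hp.1, hq.1⟩, ?_⟩
  have hmem : q - p ∈ L.direction := by
    have := AffineSubspace.vsub_mem_direction hq.2 hp.2
    simpa using this
  have hne : q - p ≠ 0 := sub_ne_zero.2 (Ne.symm hpq)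
  have hspan : Submodule.span ℂ {q - p} = L.direction := by
    apply Submodule.eq_of_le_of_finrank_eq
    · rw [Submodule.span_le]
      simpa using hmem
    · rw [finrank_span_singleton hne, hL1]
  simp only
  rw [hspan]
  exact AffineSubspace.mk'_eq hp.2

lemma many_lines {d : ℕ} (hd : 4 ≤ d) (j : ℕ) (hj : 2 ≤ j) :
    16 * j ^ 19 ≤ (richLines (V d (8 * j ^ 8)) (j ^ 6)).ncard := by
  classical
  have hr : 2 ≤ j ^ 6 := by
    calc 2 ≤ 2 ^ 6 := by norm_num
      _ ≤ j ^ 6 := Nat.pow_le_pow_left hj 6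
  have hsub : (((idx j).image (ln d) : Finset (AffineSubspace ℂ (Fin d → ℂ))) :
      Set (AffineSubspace ℂ (Fin d → ℂ))) ⊆ richLines (V d (8 * j ^ 8)) (j ^ 6) := by
    intro L hL
    rw [Finset.mem_coe, Finset.mem_image] at hL
    obtain ⟨u, hu, rfl⟩ := hL
    exact ln_rich hd j (by omega) hu
  have h := Set.ncard_le_ncard hsub (richLines_finite _ _ hr)
  rwa [Set.ncard_coe_finset, Finset.card_image_of_injOn (ln_injOn hd j (by omega)), card_idx] at h

/-- the sum in the conjectured bound is of order `j^18` -/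
lemma bracket_le {d : ℕ} (hd : 4 ≤ d) (j : ℕ) (hj : 1 ≤ j) :
    ((V d (8 * j ^ 8)).card : ℝ) ^ 2 / ((j ^ 6 : ℕ) : ℝ) ^ (d + 1) +
      (∑ l ∈ Finset.Icc 2 (d - 1),
        ((V d (8 * j ^ 8)).card : ℝ) * (s (V d (8 * j ^ 8)) l : ℝ) / ((j ^ 6 : ℕ) : ℝ) ^ (l + 1)) +
      ((V d (8 * j ^ 8)).card : ℝ) / ((j ^ 6 : ℕ) : ℝ) ≤ (d : ℝ) * (2 ^ 18 * (j : ℝ) ^ 18) := by
  have hJ : (1 : ℝ) ≤ j := by exact_mod_cast hj
  have hJ0 : (0 : ℝ) < j := by linarith
  have hn : ((V d (8 * j ^ 8)).card : ℝ) = 512 * (j : ℝ) ^ 24 := by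
    rw [card_V hd]; push_cast; ring
  have hr : ((j ^ 6 : ℕ) : ℝ) = (j : ℝ) ^ 6 := by push_cast; rfl
  have hr1 : (1 : ℝ) ≤ (j : ℝ) ^ 6 := one_le_pow₀ hJ
  rw [hn, hr]
  -- the main estimate: `n²/r^k ≤ 2^18 j^18` for `k ≥ 5`
  have main : ∀ k : ℕ, 5 ≤ k → (512 * (j : ℝ) ^ 24) ^ 2 / ((j : ℝ) ^ 6) ^ k ≤
      2 ^ 18 * (j : ℝ) ^ 18 := by
    intro k hk
    rw [div_le_iff₀ (by positivity)]
    calc (512 * (j : ℝ) ^ 24) ^ 2 = 2 ^ 18 * (j : ℝ) ^ 18 * ((j : ℝ) ^ 6) ^ 5 := by ring
      _ ≤ 2 ^ 18 * (j : ℝ) ^ 18 * ((j : ℝ) ^ 6) ^ k := by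
        apply mul_le_mul_of_nonneg_left _ (by positivity)
        exact pow_le_pow_right₀ hr1 hk
  have h1 := main (d + 1) (by omega)
  have h3 : 512 * (j : ℝ) ^ 24 / (j : ℝ) ^ 6 ≤ 2 ^ 18 * (j : ℝ) ^ 18 := by
    rw [div_le_iff₀ (by positivity)]
    have : 0 ≤ (j : ℝ) ^ 24 := by positivity
    nlinarith [this]
  have h2 : ∑ l ∈ Finset.Icc 2 (d - 1),
      512 * (j : ℝ) ^ 24 * (s (V d (8 * j ^ 8)) l : ℝ) / ((j : ℝ) ^ 6) ^ (l + 1) ≤
      ∑ l ∈ Finset.Icc 2 (d - 1), 2 ^ 18 * (j : ℝ) ^ 18 := by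
    apply Finset.sum_le_sum
    intro l hl
    rw [Finset.mem_Icc] at hl
    rcases Nat.lt_or_ge l 4 with h4 | h4
    · rcases (by omega : l = 2 ∨ l = 3) with rfl | rfl
      · have hs : s (V d (8 * j ^ 8)) 2 ≤ 2 * (8 * j ^ 8) :=
          s_le_of _ _ _ (fun F hF => flat2 hd _ F hF.le)
        have hs' : (s (V d (8 * j ^ 8)) 2 : ℝ) ≤ 16 * (j : ℝ) ^ 8 := by
          have : ((s (V d (8 * j ^ 8)) 2 : ℕ) : ℝ) ≤ ((2 * (8 * j ^ 8) : ℕ) : ℝ) := by
            exact_mod_cast hs
          push_cast at this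
          linarith
        rw [div_le_iff₀ (by positivity)]
        calc 512 * (j : ℝ) ^ 24 * (s (V d (8 * j ^ 8)) 2 : ℝ)
            ≤ 512 * (j : ℝ) ^ 24 * (16 * (j : ℝ) ^ 8) :=
              mul_le_mul_of_nonneg_left hs' (by positivity)
          _ = 8192 * ((j : ℝ) ^ 32 * 1) := by ring
          _ ≤ 2 ^ 18 * ((j : ℝ) ^ 32 * (j : ℝ) ^ 4) := by
              have : (1 : ℝ) ≤ (j : ℝ) ^ 4 := one_le_pow₀ hJ
              have h32 : 0 ≤ (j : ℝ) ^ 32 := by positivity
              nlinarith [mul_le_mul_of_nonneg_left this h32]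
          _ = 2 ^ 18 * (j : ℝ) ^ 18 * ((j : ℝ) ^ 6) ^ (2 + 1) := by ring
      · have hs : s (V d (8 * j ^ 8)) 3 ≤ 2 * (8 * j ^ 8) ^ 2 :=
          s_le_of _ _ _ (fun F hF => flat3 hd _ F hF.le)
        have hs' : (s (V d (8 * j ^ 8)) 3 : ℝ) ≤ 128 * (j : ℝ) ^ 16 := by
          have : ((s (V d (8 * j ^ 8)) 3 : ℕ) : ℝ) ≤ ((2 * (8 * j ^ 8) ^ 2 : ℕ) : ℝ) := by
            exact_mod_cast hs
          push_cast at this
          nlinarith
        rw [div_le_iff₀ (by positivity)]
        calc 512 * (j : ℝ) ^ 24 * (s (V d (8 * j ^ 8)) 3 : ℝ)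
            ≤ 512 * (j : ℝ) ^ 24 * (128 * (j : ℝ) ^ 16) :=
              mul_le_mul_of_nonneg_left hs' (by positivity)
          _ = 65536 * ((j : ℝ) ^ 40 * 1) := by ring
          _ ≤ 2 ^ 18 * ((j : ℝ) ^ 40 * (j : ℝ) ^ 2) := by
              have : (1 : ℝ) ≤ (j : ℝ) ^ 2 := one_le_pow₀ hJ
              have h40 : 0 ≤ (j : ℝ) ^ 40 := by positivity
              nlinarith [mul_le_mul_of_nonneg_left this h40]
          _ = 2 ^ 18 * (j : ℝ) ^ 18 * ((j : ℝ) ^ 6) ^ (3 + 1) := by ring
    · have hs : (s (V d (8 * j ^ 8)) l : ℝ) ≤ 512 * (j : ℝ) ^ 24 := by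
        rw [← hn]
        exact_mod_cast s_le_card (V d (8 * j ^ 8)) l
      refine le_trans ?_ (main (l + 1) (by omega))
      apply div_le_div_of_nonneg_right _ (by positivity)
      calc 512 * (j : ℝ) ^ 24 * (s (V d (8 * j ^ 8)) l : ℝ)
          ≤ 512 * (j : ℝ) ^ 24 * (512 * (j : ℝ) ^ 24) :=
            mul_le_mul_of_nonneg_left hs (by positivity)
        _ = (512 * (j : ℝ) ^ 24) ^ 2 := by ring
  rw [Finset.sum_const, Nat.card_Icc, nsmul_eq_mul] at h2
  have hcast : ((d - 1 + 1 - 2 : ℕ) : ℝ) = (d : ℝ) - 2 := by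
    rw [show d - 1 + 1 - 2 = d - 2 by omega, Nat.cast_sub (by omega)]
    norm_num
  rw [hcast] at h2
  linarith

/-- the final numerical comparison -/
lemma final_ineq (D C n B L j : ℝ) (_hD : 0 < D) (hj : 0 < j) (hn : n = 512 * j ^ 24)
    (hjM : 512 * ((|C| + 1) * (D * 2 ^ 18)) ^ 25 < j) (hB0 : 0 ≤ B)
    (hb : B ≤ D * (2 ^ 18 * j ^ 18)) (hl : 16 * j ^ 19 ≤ L) :
    C * n ^ ((1 : ℝ) / 25) * B < L := by
  have hn0 : 0 ≤ n := by rw [hn]; positivity
  have hq0 : 0 ≤ n ^ ((1 : ℝ) / 25) := Real.rpow_nonneg hn0 _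
  have hq25 : (n ^ ((1 : ℝ) / 25)) ^ 25 = 512 * j ^ 24 := by
    rw [← hn, ← Real.rpow_natCast, ← Real.rpow_mul hn0]
    norm_num
  generalize n ^ ((1 : ℝ) / 25) = q at hq0 hq25
  have hC : C ≤ |C| + 1 := by linarith [le_abs_self C]
  have hC0 : 0 < |C| + 1 := by positivity
  generalize |C| + 1 = C' at hjM hC hC0
  have hMq : C' * (D * 2 ^ 18) * q < j := by
    apply lt_of_pow_lt_pow_left₀ 25 hj.le
    have e : (C' * (D * 2 ^ 18) * q) ^ 25 = (C' * (D * 2 ^ 18)) ^ 25 * q ^ 25 := mul_pow _ _ _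
    rw [e, hq25]
    generalize (C' * (D * 2 ^ 18)) ^ 25 = M at hjM
    have h24 : 0 < j ^ 24 := by positivity
    calc M * (512 * j ^ 24) = (512 * M) * j ^ 24 := by ring
      _ < j * j ^ 24 := mul_lt_mul_of_pos_right hjM h24
      _ = j ^ 25 := by ring
  have h18 : 0 < j ^ 18 := by positivity
  have h19 : 0 ≤ j ^ 19 := by positivity
  calc C * q * B ≤ C' * q * B := by
        apply mul_le_mul_of_nonneg_right _ hB0
        exact mul_le_mul_of_nonneg_right hC hq0
    _ ≤ C' * q * (D * (2 ^ 18 * j ^ 18)) := by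
        apply mul_le_mul_of_nonneg_left hb
        positivity
    _ = (C' * (D * 2 ^ 18) * q) * j ^ 18 := by ring
    _ < j * j ^ 18 := mul_lt_mul_of_pos_right hMq h18
    _ = j ^ 19 := by ring
    _ ≤ 16 * j ^ 19 := by linarith
    _ ≤ L := hl

/-- **The rich-lines conjecture fails in every dimension `d ≥ 4`**, even if a loss of `n^(1/25)`
is allowed. -/
theorem result (d : ℕ) (hd : 4 ≤ d) (C : ℝ) :
    ∃ (V : Finset (Fin d → ℂ)) (r : ℕ), 2 ≤ r ∧
      C * (V.card : ℝ) ^ ((1 : ℝ) / 25) *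
        ((V.card : ℝ) ^ 2 / (r : ℝ) ^ (d + 1) +
          (∑ l ∈ Finset.Icc 2 (d - 1), (V.card : ℝ) * (s V l : ℝ) / (r : ℝ) ^ (l + 1)) +
          (V.card : ℝ) / (r : ℝ)) < ((richLines V r).ncard : ℝ) := by
  have hd0 : (0 : ℝ) < d := by
    have : 0 < d := by omega
    exact_mod_cast this
  obtain ⟨m, hm⟩ := exists_nat_gt (512 * ((|C| + 1) * ((d : ℝ) * 2 ^ 18)) ^ 25)
  have hjM : 512 * ((|C| + 1) * ((d : ℝ) * 2 ^ 18)) ^ 25 < ((m + 2 : ℕ) : ℝ) := by
    refine lt_trans hm ?_
    push_cast; linarith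
  clear hm
  generalize hj : m + 2 = j at hjM
  have hj2 : 2 ≤ j := by omega
  have hJ0 : (0 : ℝ) < j := by
    have : 0 < j := by omega
    exact_mod_cast this
  have hb := bracket_le hd j (by omega)
  have hl : (16 : ℝ) * (j : ℝ) ^ 19 ≤ ((richLines (V d (8 * j ^ 8)) (j ^ 6)).ncard : ℝ) := by
    exact_mod_cast many_lines hd j hj2
  have hn : ((V d (8 * j ^ 8)).card : ℝ) = 512 * (j : ℝ) ^ 24 := by
    rw [card_V hd]; push_cast; ring
  have h2r : 2 ≤ j ^ 6 := by
    calc 2 ≤ 2 ^ 6 := by norm_num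
      _ ≤ j ^ 6 := Nat.pow_le_pow_left hj2 6
  refine ⟨V d (8 * j ^ 8), j ^ 6, h2r, ?_⟩
  refine final_ineq (d : ℝ) C _ _ _ (j : ℝ) hd0 hJ0 hn hjM ?_ hb hl
  refine add_nonneg (add_nonneg ?_ (Finset.sum_nonneg fun l _ => ?_)) ?_
  · exact div_nonneg (sq_nonneg _) (pow_nonneg (Nat.cast_nonneg _) _)
  · exact div_nonneg (mul_nonneg (Nat.cast_nonneg _) (Nat.cast_nonneg _))
      (pow_nonneg (Nat.cast_nonneg _) _)
  · exact div_nonneg (Nat.cast_nonneg _) (Nat.cast_nonneg _)

end Pool.Agent.Results.MP_0eaff0_co.QuadricCounterexample
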